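import Pool.Agent.V5helper43.EH.Stm

/-!
# Project EH: job STR
-/

set_option autoImplicit false

open Finset

namespace Pool.Agent.V5helper64.EH

open Pool.Agent.V5helper43.EH

lemma repO_fin (A : Set ℕ) (h m : ℕ) :
    {f : Fin h → ℕ | (∀ i, f i ∈ A) ∧ ∑ i, f i = m}.Finite := by
  refine (Set.finite_Iic (fun _ : Fin h => m)).subset ?_
  rintro f ⟨-, hf⟩ i
  rw [← hf]
  exact Finset.single_le_sum (fun _ _ => Nat.zero_le _) (Finset.mem_univ i)

lemma le_repO {A : Set ℕ} {h m K : ℕ} (F : Fin K → Fin h → ℕ) (hi : Function.Injective F)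
    (hA : ∀ t i, F t i ∈ A) (hs : ∀ t, ∑ i, F t i = m) : K ≤ repO A h m := by
  have h1 : Set.range F ⊆ {f : Fin h → ℕ | (∀ i, f i ∈ A) ∧ ∑ i, f i = m} := by
    rintro _ ⟨t, rfl⟩
    exact ⟨hA t, hs t⟩
  have h2 := Set.ncard_le_ncard h1 (repO_fin A h m)
  have h3 : (Set.range F).ncard = K := by
    rw [← Set.image_univ, Set.ncard_image_of_injective _ hi, Set.ncard_univ,
      Nat.card_eq_fintype_card, Fintype.card_fin]
  unfold repO
  omega

/-- an enumeration of a finite set which begins with a given element -/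
lemma enum {h : ℕ} (hh : 0 < h) (e : Finset ℕ) (he : e.card = h) (u : ℕ) (hu : u ∈ e) :
    ∃ φ : Fin h → ℕ, φ ⟨0, hh⟩ = u ∧ (∀ i, φ i ∈ e) ∧ ∀ b : ℕ → ℕ, ∑ i, b (φ i) = ∑ x ∈ e, b x := by
  let E : Fin h ≃ e := (e.equivFinOfCardEq he).symm
  let E' : Fin h ≃ e := E.trans (Equiv.swap (E ⟨0, hh⟩) ⟨u, hu⟩)
  refine ⟨fun i => (E' i : ℕ), ?_, fun i => (E' i).2, fun b => ?_⟩
  · simp [E']
  · rw [← Finset.sum_coe_sort e b]
    exact Equiv.sum_comp E' (fun x : e => b x)

theorem t_STR (h1 : S_SUN) (h2 : S_WND) : S_STR := by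
  intro h C K hh hK
  obtain ⟨V, I₀, hW⟩ := h2 h C (h.factorial * K ^ h + 1) hh
  refine ⟨V + K, I₀, fun a ha haC I hI G hG hGc => ?_⟩
  obtain ⟨s, hs⟩ := hW a haC I hI G hG hGc
  obtain ⟨S, g, hg, hgS, hgg⟩ := h1 h (K + 1) _ (by omega) (fun e he => (mem_powersetCard.1 (mem_filter.1 he).1).2)
    (by simpa using Nat.lt_of_succ_le hs)
  have hG' : ∀ t, g t ⊆ G := fun t => (mem_powersetCard.1 (mem_filter.1 (hgS t).1).1).1
  have hc : ∀ t, (g t).card = h := fun t => (mem_powersetCard.1 (mem_filter.1 (hgS t).1).1).2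
  have hlo : ∀ t, s ≤ ∑ v ∈ g t, a v := fun t => (mem_filter.1 (hgS t).1).2.1
  have hup : ∀ t, ∑ v ∈ g t, a v < s + V := fun t => (mem_filter.1 (hgS t).1).2.2
  -- the petals
  have hdis : ∀ t t', t ≠ t' → ∀ x ∈ g t \ S, x ∉ g t' := by
    intro t t' htt x hx hx'
    have := hgg t t' htt
    have h3 : x ∈ g t ∩ g t' := mem_inter.2 ⟨(mem_sdiff.1 hx).1, hx'⟩
    rw [this] at h3
    exact (mem_sdiff.1 hx).2 h3
  have hp : ∀ t, (g t \ S).card = h - S.card := fun t => by
    rw [card_sdiff_of_subset (hgS t).2, hc]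
  have hSc : S.card < h := by
    by_contra hcon
    have h4 : ∀ t, g t = S := fun t => (eq_of_subset_of_card_le (hgS t).2 (by rw [hc]; omega)).symm
    have h5 : (⟨0, by omega⟩ : Fin (K + 1)) = ⟨K, by omega⟩ := hg ((h4 _).trans (h4 _).symm)
    have := congrArg Fin.val h5
    simp at this
    omega
  by_cases hp2 : 2 ≤ h - S.card
  · -- petals with at least two elements
    have hex : ∀ t, ∃ u v, u ∈ g t \ S ∧ v ∈ g t \ S ∧ u ≠ v := fun t => by
      obtain ⟨u, hu, v, hv, huv⟩ := one_lt_card.1 (by rw [hp t]; omega : 1 < (g t \ S).card)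
      exact ⟨u, v, hu, hv, huv⟩
    choose u v hu hv huv using hex
    have hvi : Function.Injective v := by
      intro t t' htt
      by_contra hne
      exact hdis t t' hne _ (hv t) (htt ▸ (mem_sdiff.1 (hv t')).1)
    have hui : Function.Injective u := by
      intro t t' htt
      by_contra hne
      exact hdis t t' hne _ (hu t) (htt ▸ (mem_sdiff.1 (hu t')).1)
    let z : ℕ → ℕ := Function.extend v (fun t => s + V - ∑ x ∈ g t, a x) 0
    have hzv : ∀ t, z (v t) = s + V - ∑ x ∈ g t, a x := fun t => hvi.extend_apply _ _ t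
    have hz0 : ∀ x, (¬ ∃ t, v t = x) → z x = 0 := fun x hx => Function.extend_apply' _ _ _ hx
    refine ⟨(univ : Finset (Fin K)).biUnion fun t => g t.castSucc, z, ?_, ?_, ?_, ?_⟩
    · intro x hx
      obtain ⟨t, -, ht⟩ := mem_biUnion.1 hx
      exact hG' _ ht
    · refine card_biUnion_le.trans ?_
      rw [sum_congr rfl (fun t _ => hc (Fin.castSucc t))]
      simp [mul_comm]
    · intro x
      by_cases hx : ∃ t, v t = x
      · obtain ⟨t, rfl⟩ := hx
        rw [hzv]
        have := hlo t
        omega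
      · rw [hz0 x hx]; omega
    · intro b hb
      have hbg : ∀ t : Fin K, ∀ x ∈ g t.castSucc, b x = a x + z x := fun t x hx =>
        hb x (mem_biUnion.2 ⟨t, mem_univ _, hx⟩)
      have hbs : ∀ t : Fin K, ∑ x ∈ g t.castSucc, b x = s + V := by
        intro t
        rw [sum_congr rfl (hbg t), sum_add_distrib]
        have h6 : ∑ x ∈ g t.castSucc, z x = z (v t.castSucc) := by
          refine sum_eq_single _ ?_ ?_
          · intro x hx hxv
            refine hz0 x ?_
            rintro ⟨t', rfl⟩
            by_cases htt : t' = t.castSucc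
            · exact hxv (by rw [htt])
            · exact hdis t' _ htt _ (hv t') hx
          · intro hx
            exact absurd (mem_sdiff.1 (hv _)).1 hx
        rw [h6, hzv]
        have := hup t.castSucc
        omega
      have hex2 : ∀ t : Fin K, ∃ φ : Fin h → ℕ, φ ⟨0, by omega⟩ = u t.castSucc ∧
          (∀ i, φ i ∈ g t.castSucc) ∧ ∀ b : ℕ → ℕ, ∑ i, b (φ i) = ∑ x ∈ g t.castSucc, b x := fun t =>
        enum (by omega) _ (hc _) _ (mem_sdiff.1 (hu _)).1
      choose φ hφ0 hφm hφs using hex2
      refine ⟨s + V, le_repO (fun t i => b (φ t i)) ?_ (fun t i => ⟨_, rfl⟩) (fun t => ?_)⟩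
      · intro t t' htt
        have h7 : b (φ t ⟨0, by omega⟩) = b (φ t' ⟨0, by omega⟩) := congrFun htt _
        rw [hφ0, hφ0] at h7
        have h8 : ∀ t : Fin K, b (u t.castSucc) = a (u t.castSucc) := by
          intro t
          rw [hbg t _ (mem_sdiff.1 (hu _)).1, hz0, add_zero]
          rintro ⟨t', ht'⟩
          by_cases htt' : t' = t.castSucc
          · subst htt'
            exact huv _ ht'.symm
          · exact hdis t' _ htt' _ (hv t') (ht' ▸ (mem_sdiff.1 (hu _)).1)
        rw [h8, h8] at h7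
        have h9 := hui (ha.injective h7)
        exact Fin.castSucc_injective _ h9
      · show ∑ i, b (φ t i) = s + V
        rw [hφs t b, hbs t]
  · -- petals with one element
    have hp1 : ∀ t, (g t \ S).card = 1 := fun t => by rw [hp t]; omega
    have hex : ∀ t, ∃ v, g t \ S = {v} := fun t => card_eq_one.1 (hp1 t)
    choose v hv using hex
    have hvm : ∀ t, v t ∈ g t \ S := fun t => by rw [hv t]; exact mem_singleton_self _
    have hvi : Function.Injective v := by
      intro t t' htt
      by_contra hne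
      exact hdis t t' hne _ (hvm t) (htt ▸ (mem_sdiff.1 (hvm t')).1)
    have hsum : ∀ t, ∑ x ∈ g t, a x = a (v t) + ∑ x ∈ S, a x := fun t => by
      rw [← sum_sdiff (hgS t).2, hv t, sum_singleton]
    obtain ⟨T, -, hT⟩ := exists_max_image (univ : Finset (Fin (K + 1))) (fun t => a (v t)) ⟨0, mem_univ _⟩
    let w : Fin K → ℕ := fun t => v t.castSucc
    have hwi : Function.Injective w := hvi.comp (Fin.castSucc_injective _)
    let z : ℕ → ℕ := Function.extend w (fun t => a (v T) + t - a (w t)) 0
    have hzv : ∀ t, z (w t) = a (v T) + t - a (w t) := fun t => hwi.extend_apply _ _ t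
    have hz0 : ∀ x, (¬ ∃ t, w t = x) → z x = 0 := fun x hx => Function.extend_apply' _ _ _ hx
    refine ⟨univ.image w, z, ?_, ?_, ?_, ?_⟩
    · intro x hx
      obtain ⟨t, -, rfl⟩ := mem_image.1 hx
      exact hG' _ (mem_sdiff.1 (hvm _)).1
    · refine card_image_le.trans ?_
      rw [card_univ, Fintype.card_fin]
      exact Nat.le_mul_of_pos_left _ (by omega)
    · intro x
      by_cases hx : ∃ t, w t = x
      · obtain ⟨t, rfl⟩ := hx
        rw [hzv]
        have h3 := hup T
        have h4 := hlo t.castSucc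
        rw [hsum] at h3 h4
        have h5 := t.2
        show a (v T) + t - a (v t.castSucc) ≤ V + K
        omega
      · rw [hz0 x hx]; omega
    · intro b hb
      have hbv : ∀ t : Fin K, b (w t) = a (v T) + t := by
        intro t
        rw [hb _ (mem_image_of_mem _ (mem_univ _)), hzv]
        have := hT t.castSucc (mem_univ _)
        show a (v t.castSucc) + (a (v T) + t - a (v t.castSucc)) = _
        omega
      let t0 : Fin K := ⟨0, by omega⟩
      let i0 : Fin h := ⟨0, by omega⟩
      let i1 : Fin h := ⟨1, by omega⟩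
      have hi01 : i0 ≠ i1 := by
        intro hcon
        have := congrArg Fin.val hcon
        simp [i0, i1] at this
      refine ⟨h * a (v T) + (K - 1), le_repO
        (fun t i => a (v T) + (if i = i0 then (t : ℕ) else if i = i1 then K - 1 - t else 0)) ?_ ?_ ?_⟩
      · intro t t' htt
        have h7 := congrFun htt i0
        simp only [if_true] at h7
        exact Fin.ext (by omega)
      · intro t i
        split_ifs with h8 h9
        · exact ⟨w t, hbv t⟩
        · exact ⟨w ⟨K - 1 - t, by omega⟩, hbv _⟩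
        · exact ⟨w t0, hbv _⟩
      · intro t
        rw [sum_add_distrib, sum_const, card_univ, Fintype.card_fin, smul_eq_mul]
        congr 1
        have h8 : ∀ i : Fin h, (if i = i0 then (t : ℕ) else if i = i1 then K - 1 - t else 0) =
            (if i = i0 then (t : ℕ) else 0) + (if i = i1 then K - 1 - t else 0) := by
          intro i
          by_cases h9 : i = i0
          · rw [if_pos h9, if_pos h9, if_neg (fun h10 => hi01 (h9.symm.trans h10)), add_zero]
          · rw [if_neg h9, if_neg h9, zero_add]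
        rw [sum_congr rfl fun i _ => h8 i, sum_add_distrib, sum_ite_eq' univ i0, sum_ite_eq' univ i1,
          if_pos (mem_univ _), if_pos (mem_univ _)]
        have := t.2
        omega

end Pool.Agent.V5helper64.EH
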